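import Mathlib
import Pool.Agent.W945.Lc.Stm2

/-!
# Spectral expansions of inputs, negations, products of functions of disjoint sets of variables
-/

set_option autoImplicit false

namespace Pool.Agent.W287.Lc2.SPL

open Finset Pool.Agent.W945.Pw Pool.Agent.W945.Lc

theorem chi_empty {n : ℕ} (x : Fin n → Bool) : chi ∅ x = 1 := by
  unfold chi
  exact Finset.prod_empty

theorem spl_input (n : ℕ) (i : Fin n) : Sp {i} (1 / 2) 1 (fun x => ind (x i)) := by
  classical
  have hne : (∅ : Finset (Fin n)) ≠ {i} := (Finset.singleton_ne_empty i).symm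
  refine ⟨fun S => (if S = ∅ then (1 / 2 : ℝ) else 0) + (if S = {i} then (-1 / 2 : ℝ) else 0),
    ?_, ?_, ?_, ?_⟩
  · intro x
    simp only [add_mul, Finset.sum_add_distrib, ite_mul, zero_mul, Finset.sum_ite_eq',
      Finset.mem_univ, if_true]
    rw [chi_empty]
    unfold chi ind sg
    rw [Finset.prod_singleton]
    cases x i <;> norm_num
  · intro S hS
    have h1 : S ≠ ∅ := by
      rintro rfl
      exact hS (Finset.empty_subset _)
    have h2 : S ≠ {i} := by
      rintro rfl
      exact hS (Finset.Subset.refl _)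
    simp [h1, h2]
  · simp [hne]
  · have h1 : ∀ S : Finset (Fin n),
        |(if S = ∅ then (1 / 2 : ℝ) else 0) + (if S = {i} then (-1 / 2 : ℝ) else 0)| ≤
        (if S = ∅ then (1 / 2 : ℝ) else 0) + (if S = {i} then (1 / 2 : ℝ) else 0) := by
      intro S
      refine (abs_add_le _ _).trans (add_le_add ?_ ?_)
      · split_ifs <;> norm_num
      · split_ifs <;> norm_num [abs_le]
    refine (Finset.sum_le_sum (fun S _ => h1 S)).trans ?_
    rw [Finset.sum_add_distrib, Finset.sum_ite_eq', Finset.sum_ite_eq']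
    simp only [Finset.mem_univ, if_true]
    norm_num

theorem spl_neg (n : ℕ) (P : Finset (Fin n)) (p a : ℝ) (f : (Fin n → Bool) → ℝ) (hp0 : 0 ≤ p)
    (hp1 : p ≤ 1) (hf : Sp P p a f) : Sp P (1 - p) (1 - 2 * p + a) (fun x => 1 - f x) := by
  classical
  obtain ⟨c, hc1, hc2, hc3, hc4⟩ := hf
  refine ⟨fun S => (if S = ∅ then (1 : ℝ) else 0) - c S, ?_, ?_, ?_, ?_⟩
  · intro x
    simp only [sub_mul, Finset.sum_sub_distrib, ite_mul, zero_mul, Finset.sum_ite_eq',
      Finset.mem_univ, if_true, one_mul]
    rw [chi_empty, ← hc1]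
  · intro S hS
    have h1 : S ≠ ∅ := by
      rintro rfl
      exact hS (Finset.empty_subset _)
    simp [h1, hc2 S hS]
  · simp [hc3]
  · have h1 : ∀ S : Finset (Fin n), |(if S = ∅ then (1 : ℝ) else 0) - c S| =
        (if S = ∅ then (1 - 2 * p : ℝ) else 0) + |c S| := by
      intro S
      by_cases hS : S = ∅
      · subst hS
        simp only [if_true]
        rw [hc3, abs_of_nonneg (by linarith), abs_of_nonneg hp0]
        ring
      · simp only [hS, if_false]
        rw [zero_sub, abs_neg, zero_add]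
    rw [Finset.sum_congr rfl (fun S _ => h1 S), Finset.sum_add_distrib, Finset.sum_ite_eq']
    simp only [Finset.mem_univ, if_true]
    linarith

theorem chi_union {n : ℕ} (T U : Finset (Fin n)) (h : Disjoint T U) (x : Fin n → Bool) :
    chi (T ∪ U) x = chi T x * chi U x := by
  unfold chi
  exact Finset.prod_union h

theorem spl_mul (n : ℕ) (P Q : Finset (Fin n)) (p q a b : ℝ) (f g : (Fin n → Bool) → ℝ)
    (hPQ : Disjoint P Q) (hf : Sp P p a f) (hg : Sp Q q b g) :
    Sp (P ∪ Q) (p * q) (a * b) (fun x => f x * g x) := by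
  classical
  obtain ⟨c, hc1, hc2, hc3, hc4⟩ := hf
  obtain ⟨d, hd1, hd2, hd3, hd4⟩ := hg
  have hz : ∀ T U : Finset (Fin n), ¬ (T ⊆ P ∧ U ⊆ Q) → c T * d U = 0 := by
    intro T U h
    by_cases hT : T ⊆ P
    · have hU : ¬ U ⊆ Q := fun hU => h ⟨hT, hU⟩
      rw [hd2 U hU, mul_zero]
    · rw [hc2 T hT, zero_mul]
  refine ⟨fun S => ∑ T, ∑ U, if S = T ∪ U then c T * d U else 0, ?_, ?_, ?_, ?_⟩
  · intro x
    have h1 : ∀ T U : Finset (Fin n), c T * chi T x * (d U * chi U x) =
        c T * d U * chi (T ∪ U) x := by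
      intro T U
      by_cases h : T ⊆ P ∧ U ⊆ Q
      · rw [chi_union T U (Finset.disjoint_of_subset_left h.1
          (Finset.disjoint_of_subset_right h.2 hPQ))]
        ring
      · rw [hz T U h, zero_mul]
        have h2 := hz T U h
        calc c T * chi T x * (d U * chi U x) = c T * d U * (chi T x * chi U x) := by ring
          _ = 0 := by rw [h2, zero_mul]
    calc f x * g x = ∑ T, ∑ U, c T * chi T x * (d U * chi U x) := by
          rw [hc1 x, hd1 x, Finset.sum_mul_sum]
      _ = ∑ T, ∑ U, ∑ S, (if S = T ∪ U then c T * d U else 0) * chi S x := by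
          refine Finset.sum_congr rfl (fun T _ => Finset.sum_congr rfl (fun U _ => ?_))
          simp only [ite_mul, zero_mul, Finset.sum_ite_eq', Finset.mem_univ, if_true]
          exact h1 T U
      _ = ∑ T, ∑ S, ∑ U, (if S = T ∪ U then c T * d U else 0) * chi S x :=
          Finset.sum_congr rfl (fun T _ => Finset.sum_comm)
      _ = ∑ S, ∑ T, ∑ U, (if S = T ∪ U then c T * d U else 0) * chi S x := Finset.sum_comm
      _ = _ := by
          refine Finset.sum_congr rfl (fun S _ => ?_)
          rw [Finset.sum_mul]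
          exact Finset.sum_congr rfl (fun T _ => by rw [Finset.sum_mul])
  · intro S hS
    refine Finset.sum_eq_zero (fun T _ => Finset.sum_eq_zero (fun U _ => ?_))
    split_ifs with h
    · apply hz
      rintro ⟨h1, h2⟩
      apply hS
      rw [h]
      exact Finset.union_subset_union h1 h2
    · rfl
  · show ∑ T, ∑ U, (if ∅ = T ∪ U then c T * d U else 0) = p * q
    rw [Finset.sum_eq_single ∅, Finset.sum_eq_single ∅]
    · simp [hc3, hd3]
    · intro U _ hU
      rw [if_neg]
      intro h
      rw [Finset.empty_union] at h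
      exact hU h.symm
    · intro h
      exact absurd (Finset.mem_univ _) h
    · intro T _ hT
      refine Finset.sum_eq_zero (fun U _ => ?_)
      rw [if_neg]
      intro h
      exact hT (Finset.union_eq_empty.1 h.symm).1
    · intro h
      exact absurd (Finset.mem_univ _) h
  · calc ∑ S, |∑ T, ∑ U, if S = T ∪ U then c T * d U else 0|
        ≤ ∑ S, ∑ T, ∑ U, (if S = T ∪ U then |c T| * |d U| else 0) := by
          refine Finset.sum_le_sum (fun S _ => ?_)
          refine (Finset.abs_sum_le_sum_abs _ _).trans (Finset.sum_le_sum (fun T _ => ?_))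
          refine (Finset.abs_sum_le_sum_abs _ _).trans (Finset.sum_le_sum (fun U _ => ?_))
          split_ifs
          · rw [abs_mul]
          · rw [abs_zero]
      _ = ∑ T, ∑ S, ∑ U, (if S = T ∪ U then |c T| * |d U| else 0) := Finset.sum_comm
      _ = ∑ T, ∑ U, ∑ S, (if S = T ∪ U then |c T| * |d U| else 0) :=
          Finset.sum_congr rfl (fun T _ => Finset.sum_comm)
      _ = ∑ T, ∑ U, |c T| * |d U| := by
          refine Finset.sum_congr rfl (fun T _ => Finset.sum_congr rfl (fun U _ => ?_))
          simp only [Finset.sum_ite_eq', Finset.mem_univ, if_true]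
      _ = (∑ T, |c T|) * ∑ U, |d U| := (Finset.sum_mul_sum _ _ _ _).symm
      _ ≤ a * b := by
          have h1 : 0 ≤ ∑ T, |c T| := Finset.sum_nonneg (fun T _ => abs_nonneg _)
          have h2 : 0 ≤ ∑ U, |d U| := Finset.sum_nonneg (fun U _ => abs_nonneg _)
          exact mul_le_mul hc4 hd4 h2 (h1.trans hc4)

theorem main : SPL.Stm := ⟨spl_input, spl_neg, spl_mul⟩

end Pool.Agent.W287.Lc2.SPL
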